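import Pool.Agent.MHP.StmtsS

/-!
# Squad MHP, row SPB: the gadget is sparse (helper67)
-/

set_option autoImplicit false

open scoped Classical

namespace Pool.Agent.MHP.H67

open Pool.Agent.MHP Pool.Agent.HMT

/-- left vertices of the gadget -/
abbrev VL {J : Type} [Finite J] (T B : ℕ) (GG : Set (Equiv.Perm J)) : Type :=
  Σ c : CX T GG, Option (Fin (lf T B GG c))

/-- parent of a left vertex -/
noncomputable def par {J : Type} [Finite J] {T B : ℕ} {GG : Set (Equiv.Perm J)} :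
    VL T B GG → Option (VL T B GG)
  | ⟨c, some _⟩ => some ⟨c, none⟩
  | ⟨some (g, some (i, a)), none⟩ =>
      if h : a = 0 then some ⟨some (g, none), none⟩
      else some ⟨some (g, some (i, (a.pred h).castSucc)), none⟩
  | ⟨some (_, none), none⟩ => none
  | ⟨none, none⟩ => none

/-- depth of a core label -/
def dpc {J : Type} {T : ℕ} {GG : Set (Equiv.Perm J)} : CX T GG → ℕ
  | some (_, some (_, a)) => a.1 + 1
  | _ => 0

/-- depth of a left vertex -/
def dpt {J : Type} [Finite J] {T B : ℕ} {GG : Set (Equiv.Perm J)} : VL T B GG → ℕ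
  | ⟨c, some _⟩ => dpc c + 1
  | ⟨c, none⟩ => dpc c

section
variable {J : Type} [Finite J] {T B : ℕ} {GG : Set (Equiv.Perm J)}

theorem par_leaf (c : CX T GG) (t : Fin (lf T B GG c)) :
    par (⟨c, some t⟩ : VL T B GG) = some ⟨c, none⟩ := by
  simp [par]

theorem par_spi (g : GG) {k k' : KX J T} (h : SpAdj T k k') :
    par (⟨some (g, k'), none⟩ : VL T B GG) = some ⟨some (g, k), none⟩ := by
  cases h with
  | c i => simp [par]
  | s i a => simp [par]

theorem dpt_par {v p : VL T B GG} (h : par v = some p) : dpt p < dpt v := by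
  obtain ⟨c, o⟩ := v
  cases o with
  | some t =>
    rw [par_leaf] at h
    obtain rfl := Option.some.inj h
    simp [dpt]
  | none =>
    cases c with
    | none => simp [par] at h
    | some gk =>
      obtain ⟨g, k⟩ := gk
      cases k with
      | none => simp [par] at h
      | some ia =>
        obtain ⟨i, a⟩ := ia
        by_cases ha : a = 0
        · subst ha
          simp only [par, dite_true] at h
          obtain rfl := Option.some.inj h
          simp [dpt, dpc]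
        · simp only [par, ha, dite_false] at h
          obtain rfl := Option.some.inj h
          have : a.1 ≠ 0 := fun h0 => ha (Fin.ext h0)
          simp only [dpt, dpc, Fin.val_castSucc, Fin.val_pred]
          omega

end

section count
variable {J : Type} [Finite J] {T B : ℕ} {GG : Set (Equiv.Perm J)} {U : Type} [Finite U]
  (ρ : J → U) (H : SimpleGraph U) (Y : Set (Ver T B GG U))

/-- left part -/
def Yl : Set (VL T B GG) := {v | (Sum.inl v : Ver T B GG U) ∈ Y}

/-- right part -/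
def Yr : Set U := {u | (Sum.inr u : Ver T B GG U) ∈ Y}

/-- end of a leg -/
def lend (q : GG × J) : VL T B GG := ⟨some (q.1, some (q.2, Fin.last T)), none⟩

/-- vertices whose parent is in the set -/
def E1 : Set (VL T B GG) := {v | v ∈ Yl Y ∧ ∃ p ∈ Yl Y, par v = some p}

/-- legs with the edge to the hub -/
def E2 : Set (GG × J) := {q | lend q ∈ Yl Y ∧ ρ (q.1.1 q.2) ∈ Yr Y}

/-- edges at `o` -/
def E3 : Set J := {j | (⟨none, none⟩ : VL T B GG) ∈ Yl Y ∧ ρ j ∈ Yr Y}

/-- edges to the parent -/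
noncomputable def f1 (v : VL T B GG) : Sym2 (Ver T B GG U) :=
  s(Sum.inl ((par v).getD v), Sum.inl v)

/-- edges to the hubs -/
def f2 (q : GG × J) : Sym2 (Ver T B GG U) := s(Sum.inl (lend q), Sum.inr (ρ (q.1.1 q.2)))

/-- edges at `o` -/
def f3 (j : J) : Sym2 (Ver T B GG U) := s(Sum.inl ⟨none, none⟩, Sum.inr (ρ j))

/-- edges of the pieces -/
def f4 (Y : Set (Ver T B GG U)) : Sym2 (Yr Y) → Sym2 (Ver T B GG U) :=
  Sym2.map (fun u => Sum.inr u.1)

theorem cov {a b : Ver T B GG U} (ha : a ∈ Y) (hb : b ∈ Y) (hab : a ≠ b)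
    (h : Rl T B GG ρ H a b) :
    s(a, b) ∈ ((f1 '' E1 Y ∪ f2 ρ '' E2 ρ Y) ∪ f3 ρ '' E3 ρ Y) ∪
      f4 Y '' (H.induce (Yr Y)).edgeSet := by
  cases h with
  | leaf c t =>
    left; left; left
    refine ⟨⟨c, some t⟩, ⟨hb, ⟨c, none⟩, ha, par_leaf c t⟩, ?_⟩
    simp [f1, par_leaf]
  | spi g k k' hk =>
    left; left; left
    refine ⟨⟨some (g, k'), none⟩, ⟨hb, _, ha, par_spi g hk⟩, ?_⟩
    simp [f1, par_spi g hk]
  | leg g i =>
    left; left; right
    exact ⟨(g, i), ⟨ha, hb⟩, rfl⟩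
  | oh j =>
    left; right
    exact ⟨j, ⟨ha, hb⟩, rfl⟩
  | pc u u' hu =>
    right
    refine ⟨s(⟨u, ha⟩, ⟨u', hb⟩), ?_, ?_⟩
    · rw [SimpleGraph.mem_edgeSet]
      exact hu
    · simp [f4]

theorem cover : (Sym2.map Subtype.val) '' ((Gr T B GG ρ H).induce Y).edgeSet ⊆
    ((f1 '' E1 Y ∪ f2 ρ '' E2 ρ Y) ∪ f3 ρ '' E3 ρ Y) ∪
      f4 Y '' (H.induce (Yr Y)).edgeSet := by
  rintro _ ⟨e, he, rfl⟩
  induction e using Sym2.ind with
  | _ a b =>
    rw [SimpleGraph.mem_edgeSet] at he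
    have h2 : (Gr T B GG ρ H).Adj a.1 b.1 := he
    rw [Gr, SimpleGraph.fromRel_adj] at h2
    rw [Sym2.map_mk]
    obtain ⟨hne, h3 | h3⟩ := h2
    · exact cov ρ H Y a.2 b.2 hne h3
    · have := cov ρ H Y b.2 a.2 hne.symm h3
      rw [Sym2.eq_swap] at this
      exact this

theorem count_le : Nat.card ((Gr T B GG ρ H).induce Y).edgeSet ≤
    (E1 Y).ncard + (E2 ρ Y).ncard + (E3 ρ Y).ncard + Nat.card (H.induce (Yr Y)).edgeSet := by
  have h1 : Nat.card ((Gr T B GG ρ H).induce Y).edgeSet =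
      ((Sym2.map Subtype.val) '' ((Gr T B GG ρ H).induce Y).edgeSet).ncard := by
    rw [Set.ncard_image_of_injective _ (Sym2.map.injective Subtype.val_injective),
      Nat.card_coe_set_eq]
  rw [h1]
  refine (Set.ncard_le_ncard (cover ρ H Y) (Set.toFinite _)).trans ?_
  refine (Set.ncard_union_le _ _).trans ?_
  refine Nat.add_le_add ?_ ?_
  · refine (Set.ncard_union_le _ _).trans ?_
    refine Nat.add_le_add ?_ (Set.ncard_image_le (Set.toFinite _))
    refine (Set.ncard_union_le _ _).trans ?_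
    exact Nat.add_le_add (Set.ncard_image_le (Set.toFinite _))
      (Set.ncard_image_le (Set.toFinite _))
  · rw [Nat.card_coe_set_eq]
    exact Set.ncard_image_le (Set.toFinite _)

theorem card_Y : Nat.card Y = (Yl Y).ncard + (Yr Y).ncard := by
  have h : Y = (Sum.inl '' Yl Y) ∪ (Sum.inr '' Yr Y) := by
    ext v
    rcases v with v | v
    · simp [Yl]
    · simp [Yr]
  have hd : Disjoint (Sum.inl '' Yl Y : Set (Ver T B GG U)) (Sum.inr '' Yr Y) := by
    rw [Set.disjoint_left]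
    rintro _ ⟨a, _, rfl⟩ ⟨b, _, hb⟩
    exact absurd hb (by simp)
  rw [Nat.card_coe_set_eq]
  conv_lhs => rw [h]
  rw [Set.ncard_union_eq hd (Set.toFinite _) (Set.toFinite _),
    Set.ncard_image_of_injective _ Sum.inl_injective,
    Set.ncard_image_of_injective _ Sum.inr_injective]

/-- vertices with a parent outside -/
def NN : Set (VL T B GG) := {v | v ∈ Yl Y ∧ ∃ p, p ∉ Yl Y ∧ par v = some p}

/-- vertices with a parent -/
def QQ : Set (VL T B GG) := {v | v ∈ Yl Y ∧ par v ≠ none}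

/-- leg vertex -/
def lv (q : GG × J) (a : Fin (T + 1)) : VL T B GG := ⟨some (q.1, some (q.2, a)), none⟩

/-- full legs -/
def Full : Set (GG × J) :=
  {q | (⟨some (q.1, none), none⟩ : VL T B GG) ∈ Yl Y ∧ ∀ a, lv q a ∈ Yl Y}

theorem lv_inj {q q' : GG × J} {a a' : Fin (T + 1)}
    (h : (lv q a : VL T B GG) = lv q' a') : q = q' ∧ a = a' := by
  unfold lv at h
  have h1 := (Sigma.mk.inj_iff.1 h).1
  simp only [Option.some.injEq, Prod.mk.injEq] at h1
  obtain ⟨h2, h3, h4⟩ := h1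
  exact ⟨Prod.ext h2 h3, h4⟩

theorem par_zero (q : GG × J) :
    par (lv q 0 : VL T B GG) = some ⟨some (q.1, none), none⟩ := by
  simp [par, lv]

theorem par_succ (q : GG × J) (a : Fin T) :
    par (lv q a.succ : VL T B GG) = some (lv q a.castSucc) := by
  simp [par, lv]

theorem cnt1 : (E1 Y).ncard + (NN Y).ncard ≤ (QQ Y).ncard := by
  have hd : Disjoint (E1 Y) (NN Y) := by
    rw [Set.disjoint_left]
    rintro v ⟨_, p, hp, hv⟩ ⟨_, p', hp', hv'⟩
    rw [hv] at hv'
    obtain rfl := Option.some.inj hv'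
    exact hp' hp
  rw [← Set.ncard_union_eq hd (Set.toFinite _) (Set.toFinite _)]
  refine Set.ncard_le_ncard ?_ (Set.toFinite _)
  rintro v (⟨h1, p, _, h2⟩ | ⟨h1, p, _, h2⟩)
  · exact ⟨h1, by rw [h2]; simp⟩
  · exact ⟨h1, by rw [h2]; simp⟩

theorem exN {q : GG × J} (h : q ∈ E2 ρ Y) (hf : q ∉ Full Y) : ∃ a, lv q a ∈ NN Y := by
  by_contra hc
  push Not at hc
  apply hf
  have hall : ∀ a, (lv q a : VL T B GG) ∈ Yl Y := by
    intro a
    induction a using Fin.reverseInduction with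
    | last => exact h.1
    | cast a ih =>
      by_contra hn
      exact hc a.succ ⟨ih, _, hn, par_succ q a⟩
  refine ⟨?_, hall⟩
  by_contra hn
  exact hc 0 ⟨hall 0, _, hn, par_zero q⟩

theorem cnt2 : (E2 ρ Y).ncard ≤ (Full Y).ncard + (NN Y).ncard := by
  have h1 : E2 ρ Y ⊆ Full Y ∪ (E2 ρ Y \ Full Y) := by
    intro q hq
    by_cases h : q ∈ Full Y
    · exact Or.inl h
    · exact Or.inr ⟨hq, h⟩
  refine (Set.ncard_le_ncard h1 (Set.toFinite _)).trans ?_
  refine (Set.ncard_union_le _ _).trans ?_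
  refine Nat.add_le_add le_rfl ?_
  have h2 : ∀ q : GG × J, ∃ a, q ∈ E2 ρ Y \ Full Y → lv q a ∈ NN Y := by
    intro q
    by_cases hq : q ∈ E2 ρ Y \ Full Y
    · obtain ⟨a, ha⟩ := exN ρ Y hq.1 hq.2
      exact ⟨a, fun _ => ha⟩
    · exact ⟨0, fun h => absurd h hq⟩
  choose a ha using h2
  refine Set.ncard_le_ncard_of_injOn (fun q => lv q (a q)) (fun q hq => ha q hq) ?_
    (Set.toFinite _)
  intro q _ q' _ h
  exact (lv_inj h).1

theorem cnt3 : (T + 1) * (Full Y).ncard ≤ (QQ Y).ncard := by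
  have h1 : ((Full Y) ×ˢ (Set.univ : Set (Fin (T + 1)))).ncard = (Full Y).ncard * (T + 1) := by
    rw [Set.ncard_prod, Set.ncard_univ, Nat.card_eq_fintype_card, Fintype.card_fin]
  rw [mul_comm, ← h1]
  refine Set.ncard_le_ncard_of_injOn (fun q => lv q.1 q.2) ?_ ?_ (Set.toFinite _)
  · rintro ⟨q, a⟩ hq
    refine ⟨hq.1.2 a, ?_⟩
    rcases Fin.eq_zero_or_eq_succ a with rfl | ⟨b, rfl⟩
    · simp only [par_zero]
      simp
    · simp only [par_succ]
      simp
  · rintro ⟨q, a⟩ _ ⟨q', a'⟩ _ h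
    obtain ⟨rfl, rfl⟩ := lv_inj h
    rfl

theorem cnt12 {g : ℕ} (hg : g ≤ T + 1) :
    g * ((E1 Y).ncard + (E2 ρ Y).ncard) ≤ (g + 1) * (QQ Y).ncard := by
  have h1 := cnt1 Y
  have h2 := cnt2 ρ Y
  have h3 := cnt3 Y
  have h4 : (E1 Y).ncard + (E2 ρ Y).ncard ≤ (QQ Y).ncard + (Full Y).ncard := by omega
  calc g * ((E1 Y).ncard + (E2 ρ Y).ncard) ≤ g * ((QQ Y).ncard + (Full Y).ncard) :=
        Nat.mul_le_mul_left _ h4
    _ = g * (QQ Y).ncard + g * (Full Y).ncard := by ring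
    _ ≤ g * (QQ Y).ncard + (T + 1) * (Full Y).ncard :=
        Nat.add_le_add le_rfl (Nat.mul_le_mul_right _ hg)
    _ ≤ g * (QQ Y).ncard + (QQ Y).ncard := Nat.add_le_add le_rfl h3
    _ = (g + 1) * (QQ Y).ncard := by ring

theorem QQ_le : (QQ Y).ncard ≤ (Yl Y).ncard :=
  Set.ncard_le_ncard (fun _ h => h.1) (Set.toFinite _)

theorem QQ_lt (h : (⟨none, none⟩ : VL T B GG) ∈ Yl Y) : (QQ Y).ncard + 1 ≤ (Yl Y).ncard := by
  refine Set.ncard_lt_ncard ?_ (Set.toFinite _)
  refine ⟨fun _ h => h.1, fun hh => ?_⟩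
  have := (hh h).2
  exact this (by simp [par])

theorem E1_lt (h : (Yl Y).Nonempty) : (E1 Y).ncard + 1 ≤ (Yl Y).ncard := by
  refine Set.ncard_lt_ncard ?_ (Set.toFinite _)
  refine ⟨fun _ h => h.1, fun hh => ?_⟩
  obtain ⟨v, hv, hmin⟩ := Set.exists_min_image (Yl Y) dpt (Set.toFinite _) h
  obtain ⟨_, p, hp, hvp⟩ := hh hv
  have h1 := dpt_par hvp
  have h2 := hmin p hp
  omega

theorem E3_le (hinj : ∀ j k, H.Reachable (ρ j) (ρ k) → j = k) :
    {j | ρ j ∈ Yr Y}.ncard ≤ (Yr Y).ncard := by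
  refine Set.ncard_le_ncard_of_injOn ρ (fun j hj => hj) ?_ (Set.toFinite _)
  intro j _ k _ h
  exact hinj j k (by rw [h])

end count

theorem spb : SpcStmt → SpbStmt := by
  intro hspc J _ T B g GG U _ ρ H hg hinj hH Y hY
  have hc := count_le ρ H Y
  have hY2 := card_Y Y
  have h12 := cnt12 ρ Y hg
  rw [hY2]
  refine (Nat.mul_le_mul_left g hc).trans ?_
  have h0 := Nat.card_coe_set_eq (Yr Y)
  by_cases ho : (⟨none, none⟩ : VL T B GG) ∈ Yl Y
  · -- `o ∈ Y`
    have hq := QQ_lt Y ho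
    have h3 : (E3 ρ Y).ncard = {j | ρ j ∈ Yr Y}.ncard := by
      refine congrArg Set.ncard ?_
      ext j
      exact ⟨fun h => h.2, fun h => ⟨ho, h⟩⟩
    have h4 := hspc J g U ρ H hinj hH (Yr Y) (Set.toFinite {j | ρ j ∈ Yr Y}).toFinset
      (fun j hj => by simpa using hj)
    rw [← Set.ncard_eq_toFinset_card {j | ρ j ∈ Yr Y} (Set.toFinite _), h0] at h4
    have h5 := E3_le ρ H Y hinj
    rw [h3]
    obtain ⟨q, hq2⟩ := Nat.exists_eq_add_of_le hq
    obtain ⟨x, hx⟩ := Nat.exists_eq_add_of_le h5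
    rw [hx] at h4 ⊢
    rw [hq2]
    rw [Nat.add_sub_cancel_left] at h4
    have e1 : (QQ Y).ncard + 1 + q + ({j | ρ j ∈ Yr Y}.ncard + x) - 1 =
      (QQ Y).ncard + q + {j | ρ j ∈ Yr Y}.ncard + x := by omega
    rw [e1]
    nlinarith [Nat.zero_le (g * q), Nat.zero_le q]
  · have h3 : (E3 ρ Y).ncard = 0 := by
      rw [Set.ncard_eq_zero (Set.toFinite _)]
      ext j
      simp only [Set.mem_empty_iff_false, iff_false]
      exact fun h => ho h.1
    rw [h3]
    by_cases hX : (Yr Y).Nonempty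
    · have h4 := hH (Yr Y) hX
      rw [h0] at h4
      have hq := QQ_le Y
      have hx : 1 ≤ (Yr Y).ncard := Set.Nonempty.ncard_pos (Set.toFinite _) hX
      obtain ⟨x, hx⟩ := Nat.exists_eq_add_of_le' hx
      obtain ⟨q, hq2⟩ := Nat.exists_eq_add_of_le hq
      rw [hx] at h4 ⊢
      rw [hq2]
      rw [Nat.add_sub_cancel] at h4
      have e1 : (QQ Y).ncard + q + (x + 1) - 1 = (QQ Y).ncard + q + x := by omega
      rw [e1]
      nlinarith [Nat.zero_le (g * q), Nat.zero_le q]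
    · have hX2 : Yr Y = ∅ := Set.not_nonempty_iff_eq_empty.1 hX
      have h2 : (E2 ρ Y).ncard = 0 := by
        rw [Set.ncard_eq_zero (Set.toFinite _)]
        ext j
        simp only [Set.mem_empty_iff_false, iff_false]
        intro h
        have := h.2
        rw [hX2] at this
        exact this
      have h4 : Nat.card (H.induce (Yr Y)).edgeSet = 0 := by
        rw [Nat.card_eq_zero]
        left
        refine ⟨fun e => ?_⟩
        obtain ⟨e, he⟩ := e
        induction e using Sym2.ind with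
        | _ a b => exact hX ⟨a.1, a.2⟩
      have hL : (Yl Y).Nonempty := by
        obtain ⟨v, hv⟩ := hY
        rcases v with v | v
        · exact ⟨v, hv⟩
        · exact absurd ⟨v, hv⟩ hX
      have h5 := E1_lt Y hL
      rw [h2, h4, hX2, Set.ncard_empty]
      obtain ⟨q, hq2⟩ := Nat.exists_eq_add_of_le h5
      rw [hq2]
      have e1 : (E1 Y).ncard + 1 + q + 0 - 1 = (E1 Y).ncard + q := by omega
      rw [e1]
      nlinarith [Nat.zero_le (g * q), Nat.zero_le q, Nat.zero_le (E1 Y).ncard]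

end Pool.Agent.MHP.H67
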